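import Mathlib
import Pool.Agent.Helper25.GF.Goals

/-!
# Project GF (MP_766b49_co), packet UNB
-/

set_option autoImplicit false

namespace Pool.Agent.Helper12.GF

open Finset

theorem choose_le_exp (T k : ℕ) (hk : 1 ≤ k) (hkT : k ≤ T) :
    (T.choose k : ℝ) ≤ Real.exp (k * Real.log (Real.exp 1 * T / k)) := by
  have hk0 : (0 : ℝ) < (k : ℝ) := by exact_mod_cast hk
  have hT0 : (0 : ℝ) < (T : ℝ) := by exact_mod_cast (lt_of_lt_of_le hk hkT)
  have h1 : (T.choose k : ℝ) ≤ (T : ℝ) ^ k / (k.factorial : ℝ) := Nat.choose_le_pow_div k T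
  have h2 : (k : ℝ) ^ k / (k.factorial : ℝ) ≤ Real.exp k := Real.pow_div_factorial_le_exp k hk0.le k
  have h3 : Real.exp (k * Real.log (Real.exp 1 * T / k)) = (Real.exp 1 * T / k) ^ k := by
    rw [mul_comm, Real.exp_mul, Real.exp_log (by positivity), Real.rpow_natCast]
  rw [h3]
  refine h1.trans ?_
  have h4 : (T : ℝ) ^ k / (k.factorial : ℝ) = ((T : ℝ) / k) ^ k * ((k : ℝ) ^ k / (k.factorial : ℝ)) := by
    rw [div_pow]
    field_simp
  have h5 : (Real.exp 1 * T / k) ^ k = ((T : ℝ) / k) ^ k * Real.exp k := by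
    rw [mul_div_assoc, mul_pow, ← Real.exp_nat_mul, mul_one, mul_comm]
  rw [h4, h5]
  exact mul_le_mul_of_nonneg_left h2 (by positivity)

theorem term_le (δ η : ℝ) (hδ : 0 < δ) (T k : ℕ) (hk : 1 ≤ k) (hkT : k ≤ T)
    (hη : η * T ≤ k) :
    (T.choose k : ℝ) * Real.exp (- ((1 + δ) * k * Real.log (Real.exp 1 * T / k)))
      ≤ Real.exp (-(δ / 2)) ^ k * Real.exp (-(δ * η / 2)) ^ T := by
  have hk0 : (0 : ℝ) < (k : ℝ) := by exact_mod_cast hk
  have hT0 : (0 : ℝ) < (T : ℝ) := by exact_mod_cast (lt_of_lt_of_le hk hkT)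
  have hkTR : (k : ℝ) ≤ (T : ℝ) := by exact_mod_cast hkT
  set L : ℝ := Real.log (Real.exp 1 * T / k) with hL
  have hL1 : 1 ≤ L := by
    rw [hL, Real.le_log_iff_exp_le (by positivity), le_div_iff₀ hk0]
    exact mul_le_mul_of_nonneg_left hkTR (Real.exp_pos 1).le
  have h1 := choose_le_exp T k hk hkT
  rw [← hL] at h1
  calc (T.choose k : ℝ) * Real.exp (- ((1 + δ) * k * L))
      ≤ Real.exp (k * L) * Real.exp (- ((1 + δ) * k * L)) :=
        mul_le_mul_of_nonneg_right h1 (Real.exp_pos _).le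
    _ = Real.exp (- (δ * k * L)) := by
        rw [← Real.exp_add]
        congr 1
        ring
    _ ≤ Real.exp (k * (-(δ / 2)) + T * (-(δ * η / 2))) := by
        apply Real.exp_le_exp.2
        have h2 : δ * k * 1 ≤ δ * k * L := mul_le_mul_of_nonneg_left hL1 (by positivity)
        have h3 : δ / 2 * (η * T) ≤ δ / 2 * k := mul_le_mul_of_nonneg_left hη (by positivity)
        linarith
    _ = Real.exp (-(δ / 2)) ^ k * Real.exp (-(δ * η / 2)) ^ T := by
        rw [Real.exp_add, ← Real.exp_nat_mul, ← Real.exp_nat_mul]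

theorem unb : Pool.Agent.Helper25.GF.UNB := by
  intro δ η hδ hη
  set r : ℝ := Real.exp (-(δ / 2)) with hr
  set s : ℝ := Real.exp (-(δ * η / 2)) with hs
  have hr0 : 0 < r := Real.exp_pos _
  have hs0 : 0 < s := Real.exp_pos _
  have hr1 : r < 1 := by
    rw [hr, Real.exp_lt_one_iff]
    linarith
  have hs1 : s < 1 := by
    rw [hs, Real.exp_lt_one_iff]
    have : 0 < δ * η := mul_pos hδ hη
    linarith
  have hpos : 0 < (1 - r) * (1 - s) / 4 := by
    have h1 : 0 < 1 - r := by linarith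
    have h2 : 0 < 1 - s := by linarith
    positivity
  obtain ⟨n₀, hn₀⟩ := exists_pow_lt_of_lt_one hpos hs1
  refine ⟨n₀ + 1, by omega, ?_⟩
  intro N
  have hgeo : ∀ (x : ℝ), 0 < x → x < 1 → ∀ F : Finset ℕ, ∑ i ∈ F, x ^ i ≤ (1 - x)⁻¹ := by
    intro x hx0 hx1 F
    rw [← tsum_geometric_of_lt_one hx0.le hx1]
    exact (summable_geometric_of_lt_one hx0.le hx1).sum_le_tsum F (fun i _ => by positivity)
  have hinner : ∀ T ∈ Icc (n₀ + 1) N, ∑ k ∈ (Icc 1 T).filter (fun k : ℕ => η * T ≤ k),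
      (T.choose k : ℝ) * Real.exp (- ((1 + δ) * k * Real.log (Real.exp 1 * T / k)))
        ≤ (1 - r)⁻¹ * s ^ T := by
    intro T _
    calc ∑ k ∈ (Icc 1 T).filter (fun k : ℕ => η * T ≤ k),
        (T.choose k : ℝ) * Real.exp (- ((1 + δ) * k * Real.log (Real.exp 1 * T / k)))
        ≤ ∑ k ∈ (Icc 1 T).filter (fun k : ℕ => η * T ≤ k), r ^ k * s ^ T := by
          apply Finset.sum_le_sum
          intro k hk
          rw [Finset.mem_filter, Finset.mem_Icc] at hk
          exact term_le δ η hδ T k hk.1.1 hk.1.2 hk.2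
      _ = (∑ k ∈ (Icc 1 T).filter (fun k : ℕ => η * T ≤ k), r ^ k) * s ^ T := by
          rw [Finset.sum_mul]
      _ ≤ (1 - r)⁻¹ * s ^ T := mul_le_mul_of_nonneg_right (hgeo r hr0 hr1 _) (by positivity)
  refine (Finset.sum_le_sum hinner).trans ?_
  rw [← Finset.mul_sum]
  have hsum : ∑ T ∈ Icc (n₀ + 1) N, s ^ T ≤ s ^ (n₀ + 1) * (1 - s)⁻¹ := by
    have h1 : Icc (n₀ + 1) N = Ico (n₀ + 1) (N + 1) := by
      ext x
      simp only [Finset.mem_Icc, Finset.mem_Ico]
      omega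
    rw [h1, Finset.sum_Ico_eq_sum_range]
    simp only [pow_add s (n₀ + 1)]
    rw [← Finset.mul_sum]
    exact mul_le_mul_of_nonneg_left (hgeo s hs0 hs1 _) (by positivity)
  have h1r : 0 < 1 - r := by linarith
  have h1s : 0 < 1 - s := by linarith
  have hpow : s ^ (n₀ + 1) ≤ (1 - r) * (1 - s) / 4 := by
    refine le_trans ?_ hn₀.le
    rw [pow_succ]
    have : 0 < s ^ n₀ := by positivity
    nlinarith
  calc (1 - r)⁻¹ * ∑ T ∈ Icc (n₀ + 1) N, s ^ T
      ≤ (1 - r)⁻¹ * (s ^ (n₀ + 1) * (1 - s)⁻¹) := mul_le_mul_of_nonneg_left hsum (by positivity)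
    _ ≤ (1 - r)⁻¹ * (((1 - r) * (1 - s) / 4) * (1 - s)⁻¹) := by
        apply mul_le_mul_of_nonneg_left _ (by positivity)
        exact mul_le_mul_of_nonneg_right hpow (by positivity)
    _ = 1 / 4 := by
        field_simp

end Pool.Agent.Helper12.GF
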